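import Mathlib
import Pool.Agent.H99.WitnessDefs

set_option autoImplicit false
set_option linter.unusedSimpArgs false
set_option linter.unnecessarySeqFocus false
set_option linter.unreachableTactic false
set_option linter.unusedTactic false

namespace Pool.Agent.Results.MP_472e54_mp.Pair

open Matrix Finset Pool.Agent.H99.Witness
open scoped ComplexOrder Kronecker MatrixOrder

/-- cyclic shift of the three qubits -/
def Cy : Op := Matrix.of fun x y => if y = (x.2.1, x.2.2, x.1) then 1 else 0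

/-- inverse cyclic shift -/
def Cy2 : Op := Matrix.of fun x y => if y = (x.2.2, x.1, x.2.1) then 1 else 0

/-- identity plus or minus the scalar chirality -/
noncomputable def W (s : ℝ) : Op := 1 + (2 * s * Complex.I) • (Cy - Cy2)

lemma ext8 {A B : Op} (h : ∀ a b c d e f, A (a, b, c) (d, e, f) = B (a, b, c) (d, e, f)) :
    A = B := by
  ext ⟨a, b, c⟩ ⟨d, e, f⟩; exact h a b c d e f

lemma tr_W (s : ℝ) (σ : Op) : (W s * σ).trace = σ.trace + 2 * s * Complex.I *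
    (σ (0, 1, 0) (0, 0, 1) + σ (1, 0, 0) (0, 1, 0) + σ (1, 1, 0) (0, 1, 1) + σ (0, 0, 1) (1, 0, 0)
      + σ (0, 1, 1) (1, 0, 1) + σ (1, 0, 1) (1, 1, 0)
      - (σ (1, 0, 0) (0, 0, 1) + σ (0, 0, 1) (0, 1, 0) + σ (1, 0, 1) (0, 1, 1)
        + σ (0, 1, 0) (1, 0, 0) + σ (1, 1, 0) (1, 0, 1) + σ (0, 1, 1) (1, 1, 0))) := by
  rw [W, Matrix.add_mul, Matrix.one_mul, trace_add, Matrix.smul_mul, trace_smul, Matrix.sub_mul,
    trace_sub, smul_eq_mul]
  congr 2
  simp [trace, mul_apply, Cy, Cy2, Fintype.sum_prod_type, Fin.sum_univ_two]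
  ring

lemma bloch {a : Matrix (Fin 2) (Fin 2) ℂ} (h : IsState a) : ∃ x y z : ℝ,
    x ^ 2 + y ^ 2 + z ^ 2 ≤ 1 ∧ a 0 0 = (1 + z) / 2 ∧ a 1 1 = (1 - z) / 2 ∧
      a 0 1 = (x - y * Complex.I) / 2 ∧ a 1 0 = (x + y * Complex.I) / 2 := by
  obtain ⟨h1, h2⟩ := h
  have a0 := Complex.nonneg_iff.1 (h1.diag_nonneg (i := 0))
  have a1 := Complex.nonneg_iff.1 (h1.diag_nonneg (i := 1))
  have a2 : a 0 1 = (starRingEnd ℂ) (a 1 0) := by
    conv_lhs => rw [← h1.1.eq]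
    rfl
  have a3 := (Complex.nonneg_iff.1 h1.det_nonneg).1
  rw [trace_fin_two] at h2
  have a4 := congrArg Complex.re h2
  rw [det_fin_two, a2] at a3
  simp [← a0.2, ← a1.2] at a3 a4
  refine ⟨2 * (a 1 0).re, 2 * (a 1 0).im, 2 * (a 0 0).re - 1, by nlinarith, ?_, ?_, ?_, ?_⟩
  · apply Complex.ext <;> simp [← a0.2]
  · apply Complex.ext <;> simp [← a1.2]
    linarith
  · rw [a2]; apply Complex.ext <;> simp
    ring
  · apply Complex.ext <;> simp

lemma triple (a1 a2 a3 b1 b2 b3 c1 c2 c3 : ℝ) (ha : a1 ^ 2 + a2 ^ 2 + a3 ^ 2 ≤ 1)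
    (hb : b1 ^ 2 + b2 ^ 2 + b3 ^ 2 ≤ 1) (hc : c1 ^ 2 + c2 ^ 2 + c3 ^ 2 ≤ 1) :
    (a1 * (b2 * c3 - b3 * c2) + a2 * (b3 * c1 - b1 * c3) + a3 * (b1 * c2 - b2 * c1)) ^ 2 ≤ 1 := by
  have h1 : (b2 * c3 - b3 * c2) ^ 2 + (b3 * c1 - b1 * c3) ^ 2 + (b1 * c2 - b2 * c1) ^ 2 ≤ 1 := by
    have := mul_le_one₀ hb (by positivity) hc
    nlinarith [sq_nonneg (b1 * c1 + b2 * c2 + b3 * c3)]
  generalize b2 * c3 - b3 * c2 = n1 at *
  generalize b3 * c1 - b1 * c3 = n2 at *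
  generalize b1 * c2 - b2 * c1 = n3 at *
  have := mul_le_one₀ ha (by positivity) h1
  nlinarith [sq_nonneg (a1 * n2 - a2 * n1), sq_nonneg (a1 * n3 - a3 * n1),
    sq_nonneg (a2 * n3 - a3 * n2)]

lemma ew (s : ℝ) (hs : s ^ 2 = 1) : IsEW (W s) := by
  refine ⟨?_, fun σ hσ => ?_, ?_⟩
  · refine ext8 fun a b c d e f => ?_
    fin_cases a <;> fin_cases b <;> fin_cases c <;> fin_cases d <;> fin_cases e <;> fin_cases f <;>
      simp [W, Cy, Cy2, conjTranspose_apply]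
  · refine convexHull_min (t := {σ : Op | 0 ≤ (W s * σ).trace.re}) ?_ ?_ hσ
    · rintro σ ⟨a, b, c, ha, hb, hc, rfl⟩
      rw [Set.mem_ofPred_eq, tr_W, trace_kronecker, trace_kronecker, ha.2, hb.2, hc.2]
      obtain ⟨a1, a2, a3, a4, a5, a6, a7, a8⟩ := bloch ha
      obtain ⟨b1, b2, b3, b4, b5, b6, b7, b8⟩ := bloch hb
      obtain ⟨c1, c2, c3, c4, c5, c6, c7, c8⟩ := bloch hc
      have t := triple _ _ _ _ _ _ _ _ _ a4 b4 c4
      simp only [kroneckerMap_apply, a5, a6, a7, a8, b5, b6, b7, b8, c5, c6, c7, c8]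
      simp
      have t2 : (s * (a1 * (b2 * c3 - b3 * c2) + a2 * (b3 * c1 - b1 * c3)
          + a3 * (b1 * c2 - b2 * c1))) ^ 2 ≤ 1 ^ 2 := by rw [mul_pow, hs]; linarith
      have t3 := abs_le_of_sq_le_sq' t2 zero_le_one
      nlinarith [t3.1, t3.2]
    · intro x hx y hy p q hp hq _
      simp only [Set.mem_ofPred_eq] at hx hy ⊢
      rw [Matrix.mul_add, Matrix.mul_smul, Matrix.mul_smul, trace_add, trace_smul, trace_smul,
        Complex.add_re, Complex.real_smul, Complex.real_smul, Complex.re_ofReal_mul,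
        Complex.re_ofReal_mul]
      positivity
  · let v : Fin 2 × Fin 2 × Fin 2 → ℂ := fun x =>
      if x = (1, 0, 0) then 1 else if x = (0, 1, 0) then -s * Complex.I else 0
    refine ⟨(1 / 2 : ℂ) • vecMulVec v (star v), ⟨(posSemidef_vecMulVec_self_star v).smul
      (by rw [Complex.nonneg_iff]; norm_num), ?_⟩, ?_⟩
    · simp [trace, Fintype.sum_prod_type, vecMulVec_apply, v, Complex.ext_iff]
      nlinarith
    · rw [tr_W]
      simp [trace, Fintype.sum_prod_type, vecMulVec_apply, v]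
      nlinarith

/-- product vector -/
def pv (a b c : Fin 2 → ℂ) : Fin 2 × Fin 2 × Fin 2 → ℂ := fun x => a x.1 * (b x.2.1 * c x.2.2)

/-- expectation of the witness in an unnormalised product vector -/
noncomputable def expect (s : ℝ) (a b c : Fin 2 → ℂ) : ℂ :=
  (a 0 * star (a 0) + a 1 * star (a 1)) * (b 0 * star (b 0) + b 1 * star (b 1))
    * (c 0 * star (c 0) + c 1 * star (c 1))
    + 2 * s * Complex.I * ((a 0 * star (b 0) + a 1 * star (b 1))
      * (b 0 * star (c 0) + b 1 * star (c 1)) * (c 0 * star (a 0) + c 1 * star (a 1))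
      - (b 0 * star (a 0) + b 1 * star (a 1))
      * (c 0 * star (b 0) + c 1 * star (b 1)) * (a 0 * star (c 0) + a 1 * star (c 1)))

lemma expect_eq (s : ℝ) (a b c : Fin 2 → ℂ) :
    (W s * vecMulVec (pv a b c) (star (pv a b c))).trace = expect s a b c := by
  rw [tr_W]
  simp only [trace, diag_apply, Fintype.sum_prod_type, Fin.sum_univ_two, vecMulVec_apply, pv,
    expect, Pi.star_apply, star_mul']
  ring

lemma state_of (a : Fin 2 → ℂ) (ha : a ≠ 0) :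
    ∃ t : ℝ, 0 < t ∧ IsState ((t : ℂ) • vecMulVec a (star a)) := by
  have h : 0 < ‖a 0‖ ^ 2 + ‖a 1‖ ^ 2 := by
    by_contra hc
    apply ha
    have h0 : ‖a 0‖ ^ 2 = 0 := by nlinarith [sq_nonneg ‖a 0‖, sq_nonneg ‖a 1‖]
    have h1 : ‖a 1‖ ^ 2 = 0 := by nlinarith [sq_nonneg ‖a 0‖, sq_nonneg ‖a 1‖]
    ext i
    fin_cases i
    · simpa using h0
    · simpa using h1
  refine ⟨(‖a 0‖ ^ 2 + ‖a 1‖ ^ 2)⁻¹, inv_pos.2 h, (posSemidef_vecMulVec_self_star a).smul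
    (by exact_mod_cast (inv_pos.2 h).le), ?_⟩
  rw [trace_smul, trace_fin_two]
  simp only [vecMulVec_apply, Pi.star_apply, Complex.star_def, Complex.mul_conj,
    Complex.normSq_eq_norm_sq, smul_eq_mul]
  exact_mod_cast inv_mul_cancel₀ h.ne'

lemma kill {s ε : ℝ} {P : Op} (hε : 0 < ε) (hP : P.PosSemidef)
    (hsep : ∀ σ ∈ SepSt, 0 ≤ ((W s - (ε : ℂ) • P) * σ).trace.re) (a b c : Fin 2 → ℂ)
    (ha : a ≠ 0) (hb : b ≠ 0) (hc : c ≠ 0) (h0 : expect s a b c = 0) : P *ᵥ pv a b c = 0 := by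
  obtain ⟨t1, p1, s1⟩ := state_of a ha
  obtain ⟨t2, p2, s2⟩ := state_of b hb
  obtain ⟨t3, p3, s3⟩ := state_of c hc
  have h1 := hsep _ (subset_convexHull ℝ _ ⟨_, _, _, s1, s2, s3, rfl⟩)
  have e : ((t1 : ℂ) • vecMulVec a (star a)) ⊗ₖ (((t2 : ℂ) • vecMulVec b (star b)) ⊗ₖ
      ((t3 : ℂ) • vecMulVec c (star c)))
      = ((t1 * t2 * t3 : ℝ) : ℂ) • vecMulVec (pv a b c) (star (pv a b c)) := by
    refine ext8 fun _ _ _ _ _ _ => ?_
    simp [vecMulVec_apply, pv]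
    ring
  rw [e, Matrix.mul_smul, trace_smul, smul_eq_mul, Complex.re_ofReal_mul, Matrix.sub_mul,
    trace_sub, Complex.sub_re, expect_eq, h0, Complex.zero_re, Matrix.smul_mul, trace_smul, smul_eq_mul,
    Complex.re_ofReal_mul, mul_vecMulVec, trace_vecMulVec, dotProduct_comm] at h1
  have h2 := Complex.nonneg_iff.1 (hP.dotProduct_mulVec_nonneg (pv a b c))
  rw [← hP.dotProduct_mulVec_zero_iff]
  have h3 : 0 < t1 * t2 * t3 := by positivity
  have h4 := (mul_nonneg_iff_of_pos_left h3).1 h1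
  apply Complex.ext
  · rw [Complex.zero_re]; nlinarith [h2.1]
  · rw [Complex.zero_im]; exact h2.2.symm

lemma zero_of_single {P : Op} (h : ∀ y, P *ᵥ Pi.single y 1 = 0) : P = 0 := by
  ext x y
  simpa using congrFun (h y) x

/-- eigenvectors of the Pauli matrices -/
def xp : Fin 2 → ℂ := ![1, 1]
/-- eigenvectors of the Pauli matrices -/
def xm : Fin 2 → ℂ := ![1, -1]
/-- eigenvectors of the Pauli matrices -/
def yp : Fin 2 → ℂ := ![1, Complex.I]
/-- eigenvectors of the Pauli matrices -/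
def ym : Fin 2 → ℂ := ![1, -Complex.I]
/-- eigenvectors of the Pauli matrices -/
def zp : Fin 2 → ℂ := ![1, 0]
/-- eigenvectors of the Pauli matrices -/
def zm : Fin 2 → ℂ := ![0, 1]

lemma xp_n : xp ≠ 0 := fun h => by simpa [xp] using congrFun h 0
lemma xm_n : xm ≠ 0 := fun h => by simpa [xm] using congrFun h 0
lemma yp_n : yp ≠ 0 := fun h => by simpa [yp] using congrFun h 0
lemma ym_n : ym ≠ 0 := fun h => by simpa [ym] using congrFun h 0
lemma zp_n : zp ≠ 0 := fun h => by simpa [zp] using congrFun h 0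
lemma zm_n : zm ≠ 0 := fun h => by simpa [zm] using congrFun h 1

lemma optP : IsOptimalEW (W 1) := by
  refine ⟨ew 1 (by norm_num), ?_⟩
  rintro ⟨ε, P, hε, hP, hne, -, hsep, -⟩
  have h0 := kill hε hP hsep xp yp zm xp_n yp_n zm_n (by
    simp [expect, xp, yp, zm, Complex.ext_iff]; norm_num)
  have h1 := kill hε hP hsep xp ym zp xp_n ym_n zp_n (by
    simp [expect, xp, ym, zp, Complex.ext_iff]; norm_num)
  have h2 := kill hε hP hsep xp zp yp xp_n zp_n yp_n (by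
    simp [expect, xp, yp, zp, Complex.ext_iff]; norm_num)
  have h3 := kill hε hP hsep xm yp zp xm_n yp_n zp_n (by
    simp [expect, xm, yp, zp, Complex.ext_iff]; norm_num)
  have h4 := kill hε hP hsep xm ym zm xm_n ym_n zm_n (by
    simp [expect, xm, ym, zm, Complex.ext_iff]; norm_num)
  have h5 := kill hε hP hsep xm zp ym xm_n zp_n ym_n (by
    simp [expect, xm, ym, zp, Complex.ext_iff]; norm_num)
  have h6 := kill hε hP hsep yp xp zp yp_n xp_n zp_n (by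
    simp [expect, xp, yp, zp, Complex.ext_iff]; norm_num)
  have h7 := kill hε hP hsep yp xm zm yp_n xm_n zm_n (by
    simp [expect, xm, yp, zm, Complex.ext_iff]; norm_num)
  apply hne
  apply zero_of_single
  rintro ⟨i, j, k⟩
  fin_cases i <;> fin_cases j <;> fin_cases k
  · have e : (Pi.single (0, 0, 0) 1 : Fin 2 × Fin 2 × Fin 2 → ℂ)
        = (1/4 + -1/4 * Complex.I : ℂ) • pv xp ym zp + (1/4 + 1/4 * Complex.I : ℂ) • pv xm yp zp + (1/2 + 0 * Complex.I : ℂ) • pv yp xp zp := by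
      ext ⟨a, b, c⟩
      fin_cases a <;> fin_cases b <;> fin_cases c <;>
        simp [pv, xp, xm, yp, ym, zp, zm, Complex.ext_iff] <;> norm_num
    refine (congrArg (P *ᵥ ·) e).trans ?_
    simp only [mulVec_add, mulVec_smul, h1, h3, h6, smul_zero, add_zero]
  · have e : (Pi.single (0, 0, 1) 1 : Fin 2 × Fin 2 × Fin 2 → ℂ)
        = (1/4 + -1/4 * Complex.I : ℂ) • pv xp yp zm + (1/4 + 1/4 * Complex.I : ℂ) • pv xm ym zm + (1/2 + 0 * Complex.I : ℂ) • pv yp xm zm := by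
      ext ⟨a, b, c⟩
      fin_cases a <;> fin_cases b <;> fin_cases c <;>
        simp [pv, xp, xm, yp, ym, zp, zm, Complex.ext_iff] <;> norm_num
    refine (congrArg (P *ᵥ ·) e).trans ?_
    simp only [mulVec_add, mulVec_smul, h0, h4, h7, smul_zero, add_zero]
  · have e : (Pi.single (0, 1, 0) 1 : Fin 2 × Fin 2 × Fin 2 → ℂ)
        = (-1/4 + 1/4 * Complex.I : ℂ) • pv xp yp zm + (0 + 1/2 * Complex.I : ℂ) • pv xp ym zp + (0 + -1/2 * Complex.I : ℂ) • pv xp zp yp + (0 + -1/2 * Complex.I : ℂ) • pv xm yp zp + (-1/4 + -1/4 * Complex.I : ℂ) • pv xm ym zm + (0 + 1/2 * Complex.I : ℂ) • pv xm zp ym + (-1/2 + 0 * Complex.I : ℂ) • pv yp xm zm := by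
      ext ⟨a, b, c⟩
      fin_cases a <;> fin_cases b <;> fin_cases c <;>
        simp [pv, xp, xm, yp, ym, zp, zm, Complex.ext_iff] <;> norm_num
    refine (congrArg (P *ᵥ ·) e).trans ?_
    simp only [mulVec_add, mulVec_smul, h0, h1, h2, h3, h4, h5, h7, smul_zero, add_zero]
  · have e : (Pi.single (0, 1, 1) 1 : Fin 2 × Fin 2 × Fin 2 → ℂ)
        = (0 + -1/2 * Complex.I : ℂ) • pv xp yp zm + (-1/4 + 1/4 * Complex.I : ℂ) • pv xp ym zp + (1/2 + 0 * Complex.I : ℂ) • pv xp zp yp + (-1/4 + -1/4 * Complex.I : ℂ) • pv xm yp zp + (0 + 1/2 * Complex.I : ℂ) • pv xm ym zm + (1/2 + 0 * Complex.I : ℂ) • pv xm zp ym + (-1/2 + 0 * Complex.I : ℂ) • pv yp xp zp := by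
      ext ⟨a, b, c⟩
      fin_cases a <;> fin_cases b <;> fin_cases c <;>
        simp [pv, xp, xm, yp, ym, zp, zm, Complex.ext_iff] <;> norm_num
    refine (congrArg (P *ᵥ ·) e).trans ?_
    simp only [mulVec_add, mulVec_smul, h0, h1, h2, h3, h4, h5, h6, smul_zero, add_zero]
  · have e : (Pi.single (1, 0, 0) 1 : Fin 2 × Fin 2 × Fin 2 → ℂ)
        = (-1/4 + -1/4 * Complex.I : ℂ) • pv xp yp zm + (1/2 + 0 * Complex.I : ℂ) • pv xp zp yp + (1/4 + -1/4 * Complex.I : ℂ) • pv xm ym zm + (-1/2 + 0 * Complex.I : ℂ) • pv xm zp ym + (0 + -1/2 * Complex.I : ℂ) • pv yp xm zm := by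
      ext ⟨a, b, c⟩
      fin_cases a <;> fin_cases b <;> fin_cases c <;>
        simp [pv, xp, xm, yp, ym, zp, zm, Complex.ext_iff] <;> norm_num
    refine (congrArg (P *ᵥ ·) e).trans ?_
    simp only [mulVec_add, mulVec_smul, h0, h2, h4, h5, h7, smul_zero, add_zero]
  · have e : (Pi.single (1, 0, 1) 1 : Fin 2 × Fin 2 × Fin 2 → ℂ)
        = (1/4 + 1/4 * Complex.I : ℂ) • pv xp ym zp + (0 + -1/2 * Complex.I : ℂ) • pv xp zp yp + (-1/4 + 1/4 * Complex.I : ℂ) • pv xm yp zp + (0 + -1/2 * Complex.I : ℂ) • pv xm zp ym + (0 + 1/2 * Complex.I : ℂ) • pv yp xp zp := by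
      ext ⟨a, b, c⟩
      fin_cases a <;> fin_cases b <;> fin_cases c <;>
        simp [pv, xp, xm, yp, ym, zp, zm, Complex.ext_iff] <;> norm_num
    refine (congrArg (P *ᵥ ·) e).trans ?_
    simp only [mulVec_add, mulVec_smul, h1, h2, h3, h5, h6, smul_zero, add_zero]
  · have e : (Pi.single (1, 1, 0) 1 : Fin 2 × Fin 2 × Fin 2 → ℂ)
        = (-1/4 + 1/4 * Complex.I : ℂ) • pv xp ym zp + (1/4 + 1/4 * Complex.I : ℂ) • pv xm yp zp + (0 + -1/2 * Complex.I : ℂ) • pv yp xp zp := by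
      ext ⟨a, b, c⟩
      fin_cases a <;> fin_cases b <;> fin_cases c <;>
        simp [pv, xp, xm, yp, ym, zp, zm, Complex.ext_iff] <;> norm_num
    refine (congrArg (P *ᵥ ·) e).trans ?_
    simp only [mulVec_add, mulVec_smul, h1, h3, h6, smul_zero, add_zero]
  · have e : (Pi.single (1, 1, 1) 1 : Fin 2 × Fin 2 × Fin 2 → ℂ)
        = (1/4 + -1/4 * Complex.I : ℂ) • pv xp yp zm + (-1/4 + -1/4 * Complex.I : ℂ) • pv xm ym zm + (0 + 1/2 * Complex.I : ℂ) • pv yp xm zm := by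
      ext ⟨a, b, c⟩
      fin_cases a <;> fin_cases b <;> fin_cases c <;>
        simp [pv, xp, xm, yp, ym, zp, zm, Complex.ext_iff] <;> norm_num
    refine (congrArg (P *ᵥ ·) e).trans ?_
    simp only [mulVec_add, mulVec_smul, h0, h4, h7, smul_zero, add_zero]

lemma optM : IsOptimalEW (W (-1)) := by
  refine ⟨ew (-1) (by norm_num), ?_⟩
  rintro ⟨ε, P, hε, hP, hne, -, hsep, -⟩
  have h0 := kill hε hP hsep xp yp zp xp_n yp_n zp_n (by
    simp [expect, xp, yp, zp, Complex.ext_iff]; norm_num)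
  have h1 := kill hε hP hsep xp ym zm xp_n ym_n zm_n (by
    simp [expect, xp, ym, zm, Complex.ext_iff]; norm_num)
  have h2 := kill hε hP hsep xp zp ym xp_n zp_n ym_n (by
    simp [expect, xp, ym, zp, Complex.ext_iff]; norm_num)
  have h3 := kill hε hP hsep xm yp zm xm_n yp_n zm_n (by
    simp [expect, xm, yp, zm, Complex.ext_iff]; norm_num)
  have h4 := kill hε hP hsep xm ym zp xm_n ym_n zp_n (by
    simp [expect, xm, ym, zp, Complex.ext_iff]; norm_num)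
  have h5 := kill hε hP hsep xm zp yp xm_n zp_n yp_n (by
    simp [expect, xm, yp, zp, Complex.ext_iff]; norm_num)
  have h6 := kill hε hP hsep yp xp zm yp_n xp_n zm_n (by
    simp [expect, xp, yp, zm, Complex.ext_iff]; norm_num)
  have h7 := kill hε hP hsep yp xm zp yp_n xm_n zp_n (by
    simp [expect, xm, yp, zp, Complex.ext_iff]; norm_num)
  apply hne
  apply zero_of_single
  rintro ⟨i, j, k⟩
  fin_cases i <;> fin_cases j <;> fin_cases k
  · have e : (Pi.single (0, 0, 0) 1 : Fin 2 × Fin 2 × Fin 2 → ℂ)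
        = (1/4 + -1/4 * Complex.I : ℂ) • pv xp yp zp + (1/4 + 1/4 * Complex.I : ℂ) • pv xm ym zp + (1/2 + 0 * Complex.I : ℂ) • pv yp xm zp := by
      ext ⟨a, b, c⟩
      fin_cases a <;> fin_cases b <;> fin_cases c <;>
        simp [pv, xp, xm, yp, ym, zp, zm, Complex.ext_iff] <;> norm_num
    refine (congrArg (P *ᵥ ·) e).trans ?_
    simp only [mulVec_add, mulVec_smul, h0, h4, h7, smul_zero, add_zero]
  · have e : (Pi.single (0, 0, 1) 1 : Fin 2 × Fin 2 × Fin 2 → ℂ)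
        = (1/4 + -1/4 * Complex.I : ℂ) • pv xp ym zm + (1/4 + 1/4 * Complex.I : ℂ) • pv xm yp zm + (1/2 + 0 * Complex.I : ℂ) • pv yp xp zm := by
      ext ⟨a, b, c⟩
      fin_cases a <;> fin_cases b <;> fin_cases c <;>
        simp [pv, xp, xm, yp, ym, zp, zm, Complex.ext_iff] <;> norm_num
    refine (congrArg (P *ᵥ ·) e).trans ?_
    simp only [mulVec_add, mulVec_smul, h1, h3, h6, smul_zero, add_zero]
  · have e : (Pi.single (0, 1, 0) 1 : Fin 2 × Fin 2 × Fin 2 → ℂ)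
        = (0 + -1/2 * Complex.I : ℂ) • pv xp yp zp + (-1/4 + 1/4 * Complex.I : ℂ) • pv xp ym zm + (0 + 1/2 * Complex.I : ℂ) • pv xp zp ym + (-1/4 + -1/4 * Complex.I : ℂ) • pv xm yp zm + (0 + 1/2 * Complex.I : ℂ) • pv xm ym zp + (0 + -1/2 * Complex.I : ℂ) • pv xm zp yp + (-1/2 + 0 * Complex.I : ℂ) • pv yp xp zm := by
      ext ⟨a, b, c⟩
      fin_cases a <;> fin_cases b <;> fin_cases c <;>
        simp [pv, xp, xm, yp, ym, zp, zm, Complex.ext_iff] <;> norm_num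
    refine (congrArg (P *ᵥ ·) e).trans ?_
    simp only [mulVec_add, mulVec_smul, h0, h1, h2, h3, h4, h5, h6, smul_zero, add_zero]
  · have e : (Pi.single (0, 1, 1) 1 : Fin 2 × Fin 2 × Fin 2 → ℂ)
        = (-1/4 + 1/4 * Complex.I : ℂ) • pv xp yp zp + (0 + 1/2 * Complex.I : ℂ) • pv xp ym zm + (1/2 + 0 * Complex.I : ℂ) • pv xp zp ym + (0 + -1/2 * Complex.I : ℂ) • pv xm yp zm + (-1/4 + -1/4 * Complex.I : ℂ) • pv xm ym zp + (1/2 + 0 * Complex.I : ℂ) • pv xm zp yp + (-1/2 + 0 * Complex.I : ℂ) • pv yp xm zp := by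
      ext ⟨a, b, c⟩
      fin_cases a <;> fin_cases b <;> fin_cases c <;>
        simp [pv, xp, xm, yp, ym, zp, zm, Complex.ext_iff] <;> norm_num
    refine (congrArg (P *ᵥ ·) e).trans ?_
    simp only [mulVec_add, mulVec_smul, h0, h1, h2, h3, h4, h5, h7, smul_zero, add_zero]
  · have e : (Pi.single (1, 0, 0) 1 : Fin 2 × Fin 2 × Fin 2 → ℂ)
        = (1/4 + 1/4 * Complex.I : ℂ) • pv xp ym zm + (1/2 + 0 * Complex.I : ℂ) • pv xp zp ym + (-1/4 + 1/4 * Complex.I : ℂ) • pv xm yp zm + (-1/2 + 0 * Complex.I : ℂ) • pv xm zp yp + (0 + 1/2 * Complex.I : ℂ) • pv yp xp zm := by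
      ext ⟨a, b, c⟩
      fin_cases a <;> fin_cases b <;> fin_cases c <;>
        simp [pv, xp, xm, yp, ym, zp, zm, Complex.ext_iff] <;> norm_num
    refine (congrArg (P *ᵥ ·) e).trans ?_
    simp only [mulVec_add, mulVec_smul, h1, h2, h3, h5, h6, smul_zero, add_zero]
  · have e : (Pi.single (1, 0, 1) 1 : Fin 2 × Fin 2 × Fin 2 → ℂ)
        = (-1/4 + -1/4 * Complex.I : ℂ) • pv xp yp zp + (0 + 1/2 * Complex.I : ℂ) • pv xp zp ym + (1/4 + -1/4 * Complex.I : ℂ) • pv xm ym zp + (0 + 1/2 * Complex.I : ℂ) • pv xm zp yp + (0 + -1/2 * Complex.I : ℂ) • pv yp xm zp := by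
      ext ⟨a, b, c⟩
      fin_cases a <;> fin_cases b <;> fin_cases c <;>
        simp [pv, xp, xm, yp, ym, zp, zm, Complex.ext_iff] <;> norm_num
    refine (congrArg (P *ᵥ ·) e).trans ?_
    simp only [mulVec_add, mulVec_smul, h0, h2, h4, h5, h7, smul_zero, add_zero]
  · have e : (Pi.single (1, 1, 0) 1 : Fin 2 × Fin 2 × Fin 2 → ℂ)
        = (1/4 + -1/4 * Complex.I : ℂ) • pv xp yp zp + (-1/4 + -1/4 * Complex.I : ℂ) • pv xm ym zp + (0 + 1/2 * Complex.I : ℂ) • pv yp xm zp := by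
      ext ⟨a, b, c⟩
      fin_cases a <;> fin_cases b <;> fin_cases c <;>
        simp [pv, xp, xm, yp, ym, zp, zm, Complex.ext_iff] <;> norm_num
    refine (congrArg (P *ᵥ ·) e).trans ?_
    simp only [mulVec_add, mulVec_smul, h0, h4, h7, smul_zero, add_zero]
  · have e : (Pi.single (1, 1, 1) 1 : Fin 2 × Fin 2 × Fin 2 → ℂ)
        = (-1/4 + 1/4 * Complex.I : ℂ) • pv xp ym zm + (1/4 + 1/4 * Complex.I : ℂ) • pv xm yp zm + (0 + -1/2 * Complex.I : ℂ) • pv yp xp zm := by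
      ext ⟨a, b, c⟩
      fin_cases a <;> fin_cases b <;> fin_cases c <;>
        simp [pv, xp, xm, yp, ym, zp, zm, Complex.ext_iff] <;> norm_num
    refine (congrArg (P *ᵥ ·) e).trans ?_
    simp only [mulVec_add, mulVec_smul, h1, h3, h6, smul_zero, add_zero]

lemma CC : Cy * Cy = Cy2 ∧ Cy * Cy2 = 1 ∧ Cy2 * Cy = 1 ∧ Cy2 * Cy2 = Cy := by
  refine ⟨?_, ?_, ?_, ?_⟩ <;> refine ext8 fun a b c d e f => ?_ <;>
    simp only [Cy, Cy2, mul_apply, of_apply, ite_mul, one_mul, zero_mul, sum_ite_eq', mem_univ,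
      if_true, one_apply, eq_comm (a := (d, e, f))]

lemma exists_ne {U : Matrix (Fin 2) (Fin 2) ℂ} (h : U.det ≠ 0) : ∃ i j, U i j ≠ 0 := by
  by_contra hc
  push Not at hc
  exact h (by rw [det_fin_two, hc, hc 0 1]; simp)

lemma not_lu (U1 U2 U3 : Matrix (Fin 2) (Fin 2) ℂ) (h1 : U1 ∈ unitaryGroup (Fin 2) ℂ)
    (h2 : U2 ∈ unitaryGroup (Fin 2) ℂ) (h3 : U3 ∈ unitaryGroup (Fin 2) ℂ) :
    W (-1) ≠ (U1 ⊗ₖ (U2 ⊗ₖ U3)) * W 1 * (U1 ⊗ₖ (U2 ⊗ₖ U3))ᴴ := by
  intro h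
  have hL := kronecker_mem_unitary h1 (kronecker_mem_unitary h2 h3)
  obtain ⟨L, hLd⟩ : ∃ L : Op, L = U1 ⊗ₖ (U2 ⊗ₖ U3) := ⟨_, rfl⟩
  rw [← hLd] at h hL
  have a1 : Lᴴ * L = 1 := hL.1
  have a3 : W (-1) * L = L * W 1 := by rw [h, Matrix.mul_assoc, a1, Matrix.mul_one]
  have a4 : (Cy2 - Cy) * L = L * (Cy - Cy2) := by
    simp only [W, Matrix.add_mul, Matrix.mul_add, Matrix.one_mul, Matrix.mul_one, Matrix.smul_mul,
      Matrix.mul_smul, add_right_inj] at a3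
    have hI : (2 * Complex.I : ℂ) ≠ 0 := by simp
    apply smul_right_injective _ hI
    simp only
    rw [← neg_sub Cy Cy2, Matrix.neg_mul, smul_neg, ← neg_smul]
    simpa using a3
  obtain ⟨c1, c2, c3, c4⟩ := CC
  have a5 : (Cy2 + Cy) * L = L * (Cy + Cy2) := by
    have b1 : (Cy2 - Cy) * (Cy2 - Cy) * L = L * ((Cy - Cy2) * (Cy - Cy2)) := by
      rw [Matrix.mul_assoc, a4, ← Matrix.mul_assoc, a4, Matrix.mul_assoc]
    simp only [Matrix.sub_mul, Matrix.mul_sub, Matrix.add_mul, Matrix.mul_add, c1, c2, c3, c4,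
      Matrix.one_mul, Matrix.mul_one] at b1 ⊢
    linear_combination (norm := abel_nf) b1
  have a6 : Cy2 * L = L * Cy := by
    have hI : (2 : ℂ) ≠ 0 := two_ne_zero
    apply smul_right_injective _ hI
    simp only [Matrix.sub_mul, Matrix.mul_sub, Matrix.add_mul, Matrix.mul_add, two_smul] at a4 a5 ⊢
    linear_combination (norm := abel_nf) a4 + a5
  have a7 : ∀ i j k x y z, U1 k x * (U2 i y * U3 j z) = U1 i z * (U2 j x * U3 k y) := by
    intro i j k x y z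
    have := congrFun (congrFun a6 (i, j, k)) (x, y, z)
    rw [mul_apply, mul_apply, sum_eq_single (k, i, j), sum_eq_single (z, x, y)] at this
    · simpa [Cy, Cy2, hLd] using this
    · rintro ⟨p, q, r⟩ _ hb
      simp only [Cy, of_apply, Prod.mk.injEq, mul_ite, mul_one, mul_zero, ite_eq_right_iff]
      rintro ⟨rfl, rfl, rfl⟩
      exact absurd rfl hb
    · simp
    · rintro b _ hb
      simp [Cy2, hb]
    · simp
  have d : ∀ U ∈ unitaryGroup (Fin 2) ℂ, U.det ≠ 0 := fun U hU =>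
    fun h0 => by
      have := congrArg det hU.1
      rw [det_mul, h0, det_one] at this
      simp at this
  obtain ⟨k, x, e1⟩ := exists_ne (d U1 h1)
  obtain ⟨j, z, e3⟩ := exists_ne (d U3 h3)
  apply d U2 h2
  have : (U1 k x * U3 j z) ^ 2 * U2.det = 0 := by
    rw [det_fin_two]
    have b00 := a7 0 j k x 0 z
    have b01 := a7 0 j k x 1 z
    have b10 := a7 1 j k x 0 z
    have b11 := a7 1 j k x 1 z
    linear_combination (U1 k x * (U2 1 1 * U3 j z)) * b00 + (U1 0 z * (U2 j x * U3 k 0)) * b11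
      - (U1 k x * (U2 1 0 * U3 j z)) * b01 - (U1 0 z * (U2 j x * U3 k 1)) * b10
  exact (mul_eq_zero.1 this).resolve_left (pow_ne_zero _ (mul_ne_zero e1 e3))

/-- On three qubits there is a mirrored pair of optimal witnesses not related by local
unitaries. -/
theorem result : ∃ (W M : Op) (u : ℝ), IsOptimalEW W ∧ IsOptimalEW M ∧ W + M = (u : ℂ) • 1 ∧
    ¬ ∃ U1 U2 U3 : Matrix (Fin 2) (Fin 2) ℂ, U1 ∈ unitaryGroup (Fin 2) ℂ ∧
      U2 ∈ unitaryGroup (Fin 2) ℂ ∧ U3 ∈ unitaryGroup (Fin 2) ℂ ∧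
      M = (U1 ⊗ₖ (U2 ⊗ₖ U3)) * W * (U1 ⊗ₖ (U2 ⊗ₖ U3))ᴴ := by
  refine ⟨W 1, W (-1), 2, optP, optM, ?_, ?_⟩
  · simp only [W]
    push_cast
    module
  · rintro ⟨U1, U2, U3, h1, h2, h3, h⟩
    exact not_lu U1 U2 U3 h1 h2 h3 h

end Pool.Agent.Results.MP_472e54_mp.Pair
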